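import Pool.Agent.X32.Uni.Sch

/-!
# Systems `F_1, ..., F_g, N - G` with two linear members: Chen's theorem for all admissible `N`

Let `F_1, ..., F_g, G` be as in the problem and let two of the `g + 1` polynomials `F_1, ..., F_g, N - G` be linear.
For EVERY `N` of size up to `K X ^ (deg G)` for which the system is admissible, every interval `(A, B]` with `B ≤ X`,
`B - A ≥ θ X`, contains at least `κ (B - A) V` integers `n` such that the value of the first linear polynomial is prime,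
the value of the second one is a product of at most two primes `> X ^ (1 / 9)`, and the values of all members `f` are
products of at most `t deg f` primes `> X ^ (1 / t)` (all up to sign). Here `V = ∏_{p ≤ X} (1 - ω_N(p) / p)`, and `κ`
and `t` depend only on the sum of the degrees and on a bound of the two slopes. Moreover every set of such `n` with at
least `δ (B - A) V` elements contains a progression of `k` terms with difference `≤ (log X) ^ C`.
-/

set_option autoImplicit false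

namespace Pool.Agent.Results.MP_0bf1d2_nt.ChenSystems

open Finset
open scoped Polynomial

variable {g : ℕ}

/-- the members of the system: `F_1, ..., F_g` and (the last one) `N - G` -/
noncomputable def member (F : Fin g → ℤ[X]) (G : ℤ[X]) (N : ℤ) : Fin (g + 1) → ℤ[X] :=
  Fin.snoc F (Polynomial.C N - G)

/-- no prime divides `F_1(n) ⋯ F_g(n) (N - G(n))` for every integer `n` -/
def Admissible (F : Fin g → ℤ[X]) (G : ℤ[X]) (N : ℤ) : Prop :=
  ∀ p : ℕ, p.Prime → ∃ n : ℤ, ¬ (p : ℤ) ∣ ∏ l, (member F G N l).eval n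

/-- `ω_N(p)` -/
noncomputable def omega (F : Fin g → ℤ[X]) (G : ℤ[X]) (N : ℤ) (p : ℕ) : ℕ :=
  ((range p).filter (fun n : ℕ => (p : ℤ) ∣ ∏ l, (member F G N l).eval (n : ℤ))).card

/-- the product of `1 - ω_N(p) / p` over the primes `p ≤ X` -/
noncomputable def V (F : Fin g → ℤ[X]) (G : ℤ[X]) (N : ℤ) (X : ℕ) : ℝ :=
  ∏ p ∈ (Icc 1 X).filter Nat.Prime, (1 - (omega F G N p : ℝ) / p)

/-- `|v| > 1`, and `|v|` is a product of at most `r` primes, all of them larger than `y` -/
def Almost (r : ℕ) (y : ℝ) (v : ℤ) : Prop :=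
  1 < |v| ∧ v.natAbs.primeFactorsList.length ≤ r ∧ ∀ q : ℕ, q.Prime → (q : ℤ) ∣ v → y < q

open Classical in
/-- the integers `n` of `(A, B]` for which `|f_i(n)|` is prime, `|f_j(n)|` is a product of at most two primes
`> X ^ (1 / 9)`, and all `|f_l(n)|` are products of at most `t deg f_l` primes `> X ^ (1 / t)` -/
noncomputable def Good (F : Fin g → ℤ[X]) (G : ℤ[X]) (N : ℤ) (i j : Fin (g + 1)) (t X A B : ℕ) : Finset ℕ :=
  (Ioc A B).filter (fun n : ℕ => ((member F G N i).eval (n : ℤ)).natAbs.Prime ∧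
    Almost 2 ((X : ℝ) ^ (1 / 9 : ℝ)) ((member F G N j).eval (n : ℤ)) ∧
    ∀ l, Almost (t * (member F G N l).natDegree) ((X : ℝ) ^ (1 / (t : ℝ))) ((member F G N l).eval (n : ℤ)))

theorem result (D E : ℕ) : ∃ t : ℕ, 1 ≤ t ∧ ∃ κ : ℝ, 0 < κ ∧ ∀ (g : ℕ) (F : Fin g → ℤ[X]) (G : ℤ[X]),
    Function.Injective F → (∀ l, 1 ≤ (F l).natDegree ∧ 0 < (F l).leadingCoeff) →
    1 ≤ G.natDegree → 0 < G.leadingCoeff → ∑ l, (F l).natDegree + G.natDegree ≤ D →
    ∀ i j : Fin (g + 1), i ≠ j → (member F G 0 i).natDegree = 1 → (member F G 0 j).natDegree = 1 →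
    (member F G 0 i).leadingCoeff.natAbs ≤ E → (member F G 0 j).leadingCoeff.natAbs ≤ E →
    ∀ (K k : ℕ) (θ δ : ℝ), 0 < θ → 0 < δ → ∃ C X₀ : ℕ, ∀ X : ℕ, X₀ ≤ X → ∀ N : ℤ,
      |N| ≤ K * (X : ℤ) ^ G.natDegree → (∀ l, Polynomial.C N - G ≠ - F l) → Admissible F G N →
      κ / Real.log X ^ D ≤ V F G N X ∧ ∀ A B : ℕ, B ≤ X → θ * X ≤ (B : ℝ) - A →
        κ * ((B : ℝ) - A) * V F G N X ≤ ((Good F G N i j t X A B).card : ℝ) ∧
        ∀ S : Finset ℕ, S ⊆ Good F G N i j t X A B → δ * ((B : ℝ) - A) * V F G N X ≤ S.card →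
          ∃ x d : ℕ, 1 ≤ d ∧ (d : ℝ) ≤ Real.log X ^ C ∧ ∀ l < k, x + l * d ∈ S := by
  obtain ⟨t, ht, κ, hκ, H⟩ := Pool.Agent.X32.Uni.Sch.schU D E
  refine ⟨t, ht, κ, hκ, fun g F G h1 h2 h3 h4 h5 i j h6 h7 h8 h9 h10 K k θ δ hθ hδ => ?_⟩
  exact H g F G i j
    { inj := h1, deg := fun l => (h2 l).1, pos := fun l => (h2 l).2, degG := h3, posG := h4, sum := h5, ij := h6,
      di := h7, dj := h8, ei := h9, ej := h10 } K k θ δ hθ hδ

end Pool.Agent.Results.MP_0bf1d2_nt.ChenSystems
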