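import Pool.Agent.TH872.Sq.W18
import Pool.Agent.TH872.Sq.W19

/-!
# Schinzel's question for almost all constant terms, with arguments that have restricted digits

`f_j = κ_j x² + β_j x + c_j`, `j < r`, are linear or quadratic polynomials with fixed `κ_j`, `β_j`, whose constant terms
`c_j` vary over all integers of a given sign and of absolute value up to `X_j`, `X_j` of the order of `(b ^ k) ^ deg f_j`.
(In Schinzel's question `r = g + 1`, the first `g` polynomials are `F_1, …, F_g` and the last one is `N - G`, with `N` in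
the role of the constant term.) The argument `n` runs through the set `S` of the integers below `b ^ k` whose `i`-th
digit in base `b` lies in `D i`, `i < k`, where `D 0, …, D (k - 1)` are arbitrary sets of at least two digits each. For
almost all vectors of constant terms the number of `n ∈ S`, counted with logarithmic weights, for which all the values
are primes is given by the product of the local densities of `S`; and if some of the values are required to be primes,
the product of the Liouville functions of the others has mean value zero, even with an arbitrary bounded coefficient.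

The theorem rests on the development `Pool.Agent.TH872.Sq` of the starting library (`main_vm`, `main_pos`, `main_nice`),
which starting results use for a single polynomial (for primes) and for Liouville's function alone.
-/

set_option autoImplicit false

namespace Pool.Agent.Results.MP_0bf1d2_nt.DigitRestrictedArguments
open Finset
open Pool.Agent.TH872.Sq (qv dg ld fx th nu SgD SD main_vm main_pos main_nice liF nice_liF th_le almost)

/-- the integers below `b ^ k` whose `i`-th digit in base `b` belongs to `D i` for all `i < k` -/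
def S (b : ℕ) (D : ℕ → Finset ℕ) (k : ℕ) : Finset ℕ := (range (b ^ k)).filter (fun n : ℕ => ∀ i < k, n / b ^ i % b ∈ D i)

/-- the primes up to `z` -/
def primes (z : ℕ) : Finset ℕ := (Icc 1 z).filter Nat.Prime

/-- the degree of `κ x ^ 2 + β x + c`, where `κ` or `β` is not zero -/
def deg (κ : ℤ) : ℕ := if κ = 0 then 1 else 2

/-- the value `κ_j n ^ 2 + β_j n + c_j` -/
def val {r : ℕ} (κ β c : Fin r → ℤ) (j : Fin r) (n : ℕ) : ℤ := κ j * (n : ℤ) ^ 2 + β j * n + c j

/-- all the values are positive for all `n < b ^ k` -/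
def Positive (b k : ℕ) {r : ℕ} (κ β c : Fin r → ℤ) : Prop := ∀ j, ∀ n < b ^ k, 0 < val κ β c j n

/-- the number of the residues `a` modulo `p` such that `p` divides one of the values at `a` -/
def omega {r : ℕ} (κ β c : Fin r → ℤ) (p : ℕ) : ℕ := ((range p).filter (fun a : ℕ => ∃ j, (p : ℤ) ∣ val κ β c j a)).card

/-- the number of the `n` in `S` such that no prime `p ≤ b` divides any of the values at `n` -/
def loc (b : ℕ) (D : ℕ → Finset ℕ) (k : ℕ) {r : ℕ} (κ β c : Fin r → ℤ) : ℕ :=
  ((S b D k).filter (fun n : ℕ => ∀ p ∈ primes b, ¬ ∃ j, (p : ℤ) ∣ val κ β c j n)).card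

/-- the predicted average -/
noncomputable def sigma (b : ℕ) (D : ℕ → Finset ℕ) (k : ℕ) {r : ℕ} (κ β c : Fin r → ℤ) (z : ℕ) : ℝ :=
  (∏ p ∈ primes z, (1 - 1 / (p : ℝ)))⁻¹ ^ r * ((loc b D k κ β c : ℝ) / (S b D k).card) *
    ∏ p ∈ (primes z).filter (fun p => b < p), (1 - (omega κ β c p : ℝ) / p)

/-- the `n` in `S` for which all the values with index outside `T` are (positive) primes -/
def solutions (b : ℕ) (D : ℕ → Finset ℕ) (k : ℕ) {r : ℕ} (κ β c : Fin r → ℤ) (T : Finset (Fin r)) : Finset ℕ :=
  (S b D k).filter (fun n : ℕ => ∀ j, j ∉ T → (val κ β c j n).toNat.Prime)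

/-- Liouville's function on the positive integers, extended by zero -/
noncomputable def lam (m : ℤ) : ℝ := if 0 < m then (-1) ^ ArithmeticFunction.cardFactors m.toNat else 0

/-- the vector of constant terms with the signs `σ` and the absolute values `a` -/
def signed {r : ℕ} (σ : Fin r → ℤ) (a : Fin r → ℕ) (j : Fin r) : ℤ := σ j * (a j : ℤ)

open Classical in
/-- the number of the vectors `a`, `1 ≤ a_j ≤ X_j`, with the property `Q` -/
noncomputable def number {r : ℕ} (X : Fin r → ℕ) (Q : (Fin r → ℕ) → Prop) : ℝ :=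
  (((Fintype.piFinset (fun j : Fin r => Icc 1 (X j))).filter Q).card : ℝ)

lemma val_eq {r : ℕ} (κ β : Fin r → ℤ) (σ : Fin r → ℤ) (a : Fin r → ℕ) (j : Fin r) (n : ℕ) :
    qv (κ j) (β j) n + σ j * (a j : ℤ) = val κ β (signed σ a) j n := by
  unfold qv val signed
  ring

lemma S_pos (b : ℕ) (hb : 2 ≤ b) (D : ℕ → Finset ℕ) (k : ℕ) (hD : ∀ i < k, D i ⊆ range b ∧ 2 ≤ (D i).card) :
    0 < ((S b D k).card : ℝ) := by
  exact_mod_cast Pool.Agent.TH872.Sq.SD_card_pos b hb D k hD

/-- **Schinzel's question for almost all constant terms, with restricted digits.** -/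
theorem result (b : ℕ) (hb : 2 ≤ b) (r : ℕ) (hr : 1 ≤ r) (κ β : Fin r → ℤ) (hκ : ∀ j, κ j ≠ 0 ∨ β j ≠ 0) (F A U : ℕ) :
    ∃ B : ℕ, ∀ E : ℕ, ∃ K₀ : ℕ, ∀ k : ℕ, K₀ ≤ k → ∀ z : ℕ, (k : ℝ) ^ B ≤ z → (z : ℝ) ≤ (k : ℝ) ^ E →
    ∀ D : ℕ → Finset ℕ, (∀ i < k, D i ⊆ range b ∧ 2 ≤ (D i).card) →
    ∀ σ : Fin r → ℤ, (∀ j, σ j = 1 ∨ σ j = -1) →
    ∀ X : Fin r → ℕ, (∀ j, b ^ (deg (κ j) * k) ≤ X j ∧ X j ≤ F * b ^ (deg (κ j) * k)) →
    number X (fun a => Positive b k κ β (signed σ a) ∧
      1 / (k : ℝ) ^ U < |(∑ n ∈ solutions b D k κ β (signed σ a) ∅, ∏ j, Real.log (val κ β (signed σ a) j n)) / (S b D k).card -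
        sigma b D k κ β (signed σ a) z|) ≤ (∏ j, (X j : ℝ)) / (k : ℝ) ^ U ∧
    number X (fun a => Positive b k κ β (signed σ a) ∧
      (∀ p : ℕ, p.Prime → b < p → omega κ β (signed σ a) p < p) ∧
      ((S b D k).card : ℝ) / (k : ℝ) ^ A ≤ (loc b D k κ β (signed σ a) : ℝ) ∧
      ((solutions b D k κ β (signed σ a) ∅).card : ℝ) < ((S b D k).card : ℝ) / (k : ℝ) ^ (A + 10 * r + 2)) ≤
        (∏ j, (X j : ℝ)) / (k : ℝ) ^ U ∧
    ∀ T : Finset (Fin r), T.Nonempty → ∀ G : ℕ → ℝ, (∀ n, |G n| ≤ 1) →
      number X (fun a => ((S b D k).card : ℝ) / (k : ℝ) ^ U <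
        |∑ n ∈ solutions b D k κ β (signed σ a) T, G n *
          ∏ j, (if j ∈ T then lam (val κ β (signed σ a) j n) else Real.log (val κ β (signed σ a) j n))|) ≤
        (∏ j, (X j : ℝ)) / (k : ℝ) ^ U := by
  classical
  have hld : ∀ j, ld (κ j) (β j) ≠ 0 := by
    intro j
    unfold ld
    split_ifs with h
    · exact (hκ j).resolve_left (fun h' => h' h)
    · exact h
  obtain ⟨B, h1⟩ := main_vm b hb r κ β hld (fun _ => th) (fun _ n => ⟨le_rfl, th_le n⟩) F U
  obtain ⟨K2, h2⟩ := main_pos b hb r hr κ β hld F A U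
  have h3 : ∀ T : Finset (Fin r), T.Nonempty → _ := fun T hT =>
    main_nice b hb r κ β hld T hT (fun j => if j ∈ T then liF else th)
      (fun j hj => by rw [if_pos hj]; exact nice_liF)
      (fun j hj n => by rw [if_neg hj]; exact ⟨le_rfl, th_le n⟩) F (2 * U)
  have h3' : ∀ T : Finset (Fin r), ∃ K3 : ℕ, T.Nonempty → ∀ k : ℕ, K3 ≤ k →
      ∀ D : ℕ → Finset ℕ, (∀ i < k, D i ⊆ range b ∧ 2 ≤ (D i).card) → ∀ σ : Fin r → ℤ, (∀ j, σ j = 1 ∨ σ j = -1) →
      ∀ X : Fin r → ℕ, (∀ j, b ^ (dg (κ j) * k) ≤ X j ∧ X j ≤ F * b ^ (dg (κ j) * k)) →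
      ∀ G : ℕ → ℝ, (∀ n, |G n| ≤ 1) →
      ∑ c ∈ Fintype.piFinset (fun j : Fin r => Icc 1 (X j)), |1 / ((SD b D k).card : ℝ) * ∑ n ∈ SD b D k,
        G n * ∏ j, fx (if j ∈ T then liF else th) (qv (κ j) (β j) n + σ j * (c j : ℤ))| ≤
        (∏ j, (X j : ℝ)) / (k : ℝ) ^ (2 * U) := by
    intro T
    by_cases hT : T.Nonempty
    · obtain ⟨K3, h⟩ := h3 T hT
      exact ⟨K3, fun _ => h⟩
    · exact ⟨0, fun h => absurd h hT⟩
  choose K3 h3 using h3'
  refine ⟨B, fun E => ?_⟩
  obtain ⟨K1, h1⟩ := h1 E
  refine ⟨K1 + K2 + (∑ T, K3 T) + 1, fun k hk z hz1 hz2 D hD σ hσ X hX => ⟨?_, ?_, ?_⟩⟩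
  · unfold number
    refine @h1 k (by omega) z hz1 hz2 D hD σ hσ X hX _ (fun a => Classical.propDecidable _) ?_
    rintro a - ⟨hp, ha⟩
    refine ⟨fun j n hn => by rw [val_eq]; exact hp j n hn, ?_⟩
    refine lt_of_lt_of_eq ha ?_
    congr 1
    congr 1
    · rw [one_div_mul_eq_div]
      congr 1
      unfold solutions
      rw [sum_filter]
      apply sum_congr rfl
      intro n hn
      have hn' : n < b ^ k := by
        unfold S at hn
        exact mem_range.1 (mem_filter.1 hn).1
      have hpos : ∀ j, 0 < val κ β (signed σ a) j n := fun j => hp j n hn'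
      have hfx : ∀ j, fx th (qv (κ j) (β j) n + σ j * (a j : ℤ)) =
          if (val κ β (signed σ a) j n).toNat.Prime then Real.log (val κ β (signed σ a) j n) else 0 := by
        intro j
        rw [val_eq]
        unfold fx th
        rw [if_pos (by have := hpos j; omega)]
        split_ifs
        · congr 1
          have := Int.toNat_of_nonneg (hpos j).le
          calc (((val κ β (signed σ a) j n).toNat : ℕ) : ℝ) = (((val κ β (signed σ a) j n).toNat : ℤ) : ℝ) := by push_cast; rfl
            _ = _ := by rw [this]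
        · rfl
      simp only [hfx]
      by_cases hall : ∀ j, (val κ β (signed σ a) j n).toNat.Prime
      · rw [if_pos (fun j _ => hall j)]
        apply prod_congr rfl
        intro j _
        rw [if_pos (hall j)]
      · rw [if_neg (fun h => hall (fun j => h j (notMem_empty j)))]
        push Not at hall
        obtain ⟨j, hj⟩ := hall
        symm
        exact prod_eq_zero (mem_univ j) (if_neg hj)
  · unfold number
    refine @h2 k (by omega) D hD σ hσ X hX _ (fun a => Classical.propDecidable _) ?_
    rintro a - ⟨hp, ho, hl, hs⟩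
    refine ⟨fun j n hn => by rw [val_eq]; exact hp j n hn, ho, hl, ?_⟩
    refine lt_of_le_of_lt (le_of_eq ?_) hs
    congr 2
    unfold solutions
    apply filter_congr
    intro n _
    constructor
    · intro h j _
      rw [← val_eq]
      exact h j
    · intro h j
      rw [val_eq]
      exact h j (notMem_empty j)
  · intro T hT G hG
    have hK3 : K3 T ≤ k := by
      have := single_le_sum (f := K3) (fun _ _ => Nat.zero_le _) (mem_univ T)
      omega
    have h4 := h3 T hT k hK3 D hD σ hσ X hX G hG
    unfold number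
    apply almost _ _ _ k U (by omega) h4
    intro a _ ha
    have hS : (0 : ℝ) < ((SD b D k).card : ℝ) := S_pos b hb D k hD
    rw [abs_mul, abs_of_nonneg (by positivity), one_div_mul_eq_div]
    rw [lt_div_iff₀ hS, one_div, inv_mul_eq_div]
    refine lt_of_lt_of_eq ha ?_
    congr 1
    unfold solutions
    rw [sum_filter]
    apply sum_congr rfl
    intro n hn
    have hfx : ∀ j, fx (if j ∈ T then liF else th) (qv (κ j) (β j) n + σ j * (a j : ℤ)) =
        if j ∈ T then lam (val κ β (signed σ a) j n) else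
          (if (val κ β (signed σ a) j n).toNat.Prime then Real.log (val κ β (signed σ a) j n) else 0) := by
      intro j
      rw [val_eq]
      by_cases hj : j ∈ T
      · rw [if_pos hj, if_pos hj]
        unfold fx lam liF
        by_cases h0 : 0 < val κ β (signed σ a) j n
        · rw [if_pos h0, if_pos (by omega)]
        · rw [if_neg h0, if_neg (by omega)]
      · rw [if_neg hj, if_neg hj]
        unfold fx th
        by_cases h0 : 1 ≤ val κ β (signed σ a) j n
        · rw [if_pos h0]
          split_ifs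
          · congr 1
            have := Int.toNat_of_nonneg (show 0 ≤ val κ β (signed σ a) j n by omega)
            calc (((val κ β (signed σ a) j n).toNat : ℕ) : ℝ) = (((val κ β (signed σ a) j n).toNat : ℤ) : ℝ) := by push_cast; rfl
              _ = _ := by rw [this]
          · rfl
        · rw [if_neg h0, if_neg]
          rw [Int.toNat_of_nonpos (by omega)]
          exact Nat.not_prime_zero
    simp only [hfx]
    by_cases hall : ∀ j, j ∉ T → (val κ β (signed σ a) j n).toNat.Prime
    · rw [if_pos hall]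
      congr 1
      apply prod_congr rfl
      intro j _
      by_cases hj : j ∈ T
      · rw [if_pos hj, if_pos hj]
      · rw [if_neg hj, if_neg hj, if_pos (hall j hj)]
    · rw [if_neg hall]
      push Not at hall
      obtain ⟨j, hj1, hj2⟩ := hall
      rw [prod_eq_zero (mem_univ j) (by rw [if_neg hj1, if_neg hj2]), mul_zero]

end Pool.Agent.Results.MP_0bf1d2_nt.DigitRestrictedArguments
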