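import Pool.Agent.X275.GB.SL
import Pool.Agent.X31.S7

/-!
# Schinzel's quantitative Goldbach-type hypothesis: pairs of linear polynomials, for almost all `N` in thin families

Let `g = 1`, `F(x) = x + b`, `G(x) = c x + d`, `c ≥ 1`. (The case `b = d = 0`, `c = 1` is the binary Goldbach problem with
its asymptotic formula, `c = 2` is Lemoine's problem, `N = p + 2 q`.) For almost all members `v` of thin families of real
numbers up to `H`, ALL admissible integers `N` with `|N - v| ≤ log ^ D H`, `N ≥ H / log ^ D H`, and ALL these pairs of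
polynomials, with coefficients up to `log ^ D H`, satisfy Schinzel's formula with a relative error of at most `ε`:
`Q_1(N) = X / log ^ 2 X * 𝔖(N) (1 + O(ε))`.

The families: (1) `v = k + θ f(n)`, `f` a finite combination of real powers, for `n` in an arbitrary dense set of positive
integers; (2) `v = f(n)`, `f` an arbitrary real polynomial of degree at least `2` with a leading coefficient of suitable
size, for the `n` in an arbitrary dense subset of the set of the integers whose digits in base `b` are in prescribed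
arbitrary sets of at least two digits (there are only `N ^ δ` such integers).

Definitions in `Pool.Agent.X275.GB.SL` (for polynomials `F`, `G` with integer coefficients, as in the problem):
* `Admissible F G N`: `N - G` is irreducible and no prime divides `F(n) (N - G(n))` for every integer `n`;
* `XN G N`: the number `X` of the positive integers `n` with `N - G(n) > 0`;
* `Q₁ F G N`: the number of the positive integers `n` for which `F(n)` and `N - G(n)` are positive primes;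
* `omega F G N p`: the number of the residues `n` modulo `p` with `F(n) (N - G(n)) ≡ 0`; `SS F G N z`: the product of
  `(1 - omega / p) (1 - 1 / p) ^ (-2)` over the primes `p ≤ z`;
* `Formula ε F G N`: `SS F G N z` converges to a number `S > 0`, as `z → ∞`, and `Q_1(N) = X / log ^ 2 X * S` up to a
  relative error of at most `ε`;
* `Holds ε D H N`: `Formula ε (x + b) (c x + d) N` for all integers `b, c, d` with `1 ≤ c ≤ log ^ D H`,
  `|b|, |d| ≤ log ^ D H` for which `N` is admissible for `x + b`, `c x + d`.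

Method: the theorem on systems of linear forms for products of families of small additive energy
(`Pool.Agent.TH935.TF.fam_sys`, starting files) and the bounds for the real additive energy of these families
(`Pool.Agent.X31`, in this run).
-/

set_option autoImplicit false

namespace Pool.Agent.Results.MP_0bf1d2_nt.LinearPolynomialsThinFamilies

open Finset Pool.Agent.X275.GB.SL
open scoped Polynomial

/-- the generalised polynomial with the exponents `x ∈ F` and the coefficients `a x` -/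
noncomputable def f (F : Finset ℝ) (a : ℝ → ℝ) (t : ℝ) : ℝ := ∑ x ∈ F, a x * t ^ x

/-- `|θ| ≤ log ^ D H`, `|θ| Y ^ c ≥ H / log ^ D H` and `Y ≤ H ^ D`; `S` is a subset of `{1, ..., Y}` with at least
`Y / log ^ D H` elements, and `|k + θ f(n)| ≤ H` on `S`. -/
def FamG (F : Finset ℝ) (a : ℝ → ℝ) (c : ℝ) (D H Y : ℕ) (θ k : ℝ) (S : Finset ℕ) : Prop :=
  (Y : ℝ) ≤ (H : ℝ) ^ D ∧ |θ| ≤ Real.log H ^ D ∧ (H : ℝ) / Real.log H ^ D ≤ |θ| * (Y : ℝ) ^ c ∧
  S ⊆ Icc 1 Y ∧ (Y : ℝ) / Real.log H ^ D ≤ S.card ∧ ∀ n ∈ S, |k + θ * f F a n| ≤ H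

/-- the integers `0 ≤ n < b ^ M` whose digit at `b ^ j` in base `b` is in `𝒟 j`, for all `j < M` -/
def Digits (b : ℕ) (𝒟 : ℕ → Finset ℕ) (M : ℕ) : Finset ℕ :=
  (range (b ^ M)).filter (fun n => ∀ j < M, n / b ^ j % b ∈ 𝒟 j)

/-- `S` is a subset with at least `#(Digits b 𝒟 M) / log ^ D H` elements of the set `Digits b 𝒟 M`, where all sets `𝒟 j`
of allowed digits have at least two elements; `f` is a real polynomial of degree at most `d`, the coefficient of `x ^ d`
is at most `log ^ D H` and at least `H / (b ^ (d M) log ^ D H)` in absolute value, and `|f| ≤ H` on `S`. -/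
def FamD (b d D H M : ℕ) (𝒟 : ℕ → Finset ℕ) (f : ℝ[X]) (S : Finset ℕ) : Prop :=
  (∀ j, 𝒟 j ⊆ range b ∧ 2 ≤ (𝒟 j).card) ∧
  f.natDegree ≤ d ∧ |f.coeff d| ≤ Real.log H ^ D ∧ (H : ℝ) / Real.log H ^ D ≤ |f.coeff d| * (b : ℝ) ^ (d * M) ∧
  S ⊆ Digits b 𝒟 M ∧ ((Digits b 𝒟 M).card : ℝ) / Real.log H ^ D ≤ S.card ∧ ∀ n ∈ S, |f.eval (n : ℝ)| ≤ H

lemma datG_of {F : Finset ℝ} {a : ℝ → ℝ} {c : ℝ} {D H Y : ℕ} {θ k : ℝ} {S : Finset ℕ} (h : FamG F a c D H Y θ k S) :
    Pool.Agent.X31.DatG c D H Y θ k (fun n => Pool.Agent.X31.gp F a n) S :=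
  ⟨h.1, h.2.1, h.2.2.1, h.2.2.2.1, h.2.2.2.2.1, h.2.2.2.2.2⟩

lemma datD_of {b d D H M : ℕ} {𝒟 : ℕ → Finset ℕ} {f : ℝ[X]} {S : Finset ℕ} (h : FamD b d D H M 𝒟 f S) :
    Pool.Agent.X31.CT.Dat b d D H M 𝒟 f S :=
  ⟨h.1, h.2.1, h.2.2.1, h.2.2.2.1, h.2.2.2.2.1, h.2.2.2.2.2.1, h.2.2.2.2.2.2⟩

open Classical in
/-- (1) Let `F` be a finite set of real numbers with the maximum `c > 0`, `a c ≠ 0`, and `f(t) = ∑_{x ∈ F} a x * t ^ x`. For
all sufficiently large `H` and ALL data with `FamG F a c D H Y θ k S`, all but at most `|S| / log ^ U H` elements `n` of `S`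
are such that ALL integers `N ≥ H / log ^ D H` with `|N - (k + θ f(n))| ≤ log ^ D H` satisfy `Holds ε D H N`.

(2) Let `b ≥ 2`, `d ≥ 2`. For all sufficiently large `H` and ALL data with `FamD b d D H M 𝒟 f S`, all but at most
`|S| / log ^ U H` elements `n` of `S` are such that ALL integers `N ≥ H / log ^ D H` with `|N - f(n)| ≤ log ^ D H` satisfy
`Holds ε D H N`. -/
theorem result (D U : ℕ) (ε : ℝ) (hε : 0 < ε) :
    (∀ (F : Finset ℝ) (a : ℝ → ℝ) (c : ℝ), c ∈ F → (∀ x ∈ F, x ≤ c) → a c ≠ 0 → 0 < c →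
      ∃ H₀ : ℕ, ∀ H : ℕ, H₀ ≤ H → ∀ (Y : ℕ) (θ k : ℝ) (S : Finset ℕ), FamG F a c D H Y θ k S →
      ((S.filter (fun n : ℕ => ¬ ∀ N : ℕ, (H : ℝ) / Real.log H ^ D ≤ N →
        |(N : ℝ) - (k + θ * f F a n)| ≤ Real.log H ^ D → Holds ε D H N)).card : ℝ) ≤ S.card / Real.log H ^ U) ∧
    (∀ b d : ℕ, 2 ≤ b → 2 ≤ d →
      ∃ H₀ : ℕ, ∀ H : ℕ, H₀ ≤ H → ∀ (M : ℕ) (𝒟 : ℕ → Finset ℕ) (f : ℝ[X]) (S : Finset ℕ), FamD b d D H M 𝒟 f S →
      ((S.filter (fun n : ℕ => ¬ ∀ N : ℕ, (H : ℝ) / Real.log H ^ D ≤ N →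
        |(N : ℝ) - f.eval (n : ℝ)| ≤ Real.log H ^ D → Holds ε D H N)).card : ℝ) ≤ S.card / Real.log H ^ U) := by
  constructor
  · intro F a c hcF hmax hac hc
    obtain ⟨H₀, h0⟩ := main (Pool.Agent.X31.Sch_gp F a c hcF hmax hac hc) D U ε hε
    refine ⟨H₀, fun H hH Y θ k S hfam => ?_⟩
    obtain ⟨E, hE1, hE2⟩ := h0 H hH S (fun n => k + θ * f F a n) ⟨Y, θ, k, datG_of hfam, fun _ => rfl⟩ hfam.2.2.2.2.2
    refine le_trans ?_ hE1
    apply Nat.cast_le.2
    apply card_le_card
    intro n hn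
    rw [mem_filter] at hn
    by_contra hcon
    exact hn.2 (hE2 n hn.1 hcon)
  · intro b d hb hd
    obtain ⟨H₀, h0⟩ := main (Pool.Agent.X31.Sch_dg hb hd) D U ε hε
    refine ⟨H₀, fun H hH M 𝒟 f S hfam => ?_⟩
    obtain ⟨E, hE1, hE2⟩ := h0 H hH S (fun n => f.eval (n : ℝ)) ⟨M, 𝒟, f, datD_of hfam, fun _ => rfl⟩ hfam.2.2.2.2.2.2
    refine le_trans ?_ hE1
    apply Nat.cast_le.2
    apply card_le_card
    intro n hn
    rw [mem_filter] at hn
    by_contra hcon
    exact hn.2 (hE2 n hn.1 hcon)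

end Pool.Agent.Results.MP_0bf1d2_nt.LinearPolynomialsThinFamilies
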