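import Pool.Agent.X37.TQ.Main

/-!
# Almost every solution lies in a long narrow progression of solutions, in short intervals of `N`

Let `F` and `f_1, …, f_k` be arbitrary integer polynomials of degree at most `e` and `η, ε > 0`. For Schinzel's
question take `k = 1`, `f_1 = - G` and the number `N` as the shift: a solution is a pair `(n, N)` for which all prime
factors of `F(n)` and of `N - G(n)` are large, for example prime. In general a solution is a pair `(n, a)`, `a` a
vector of `k` integers, such that `F(n), f_1(n) + a_1, …, f_k(n) + a_k` have no prime factor up to `X ^ η`; `n` runs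
through ANY interval of length `X`, and `a` through ANY box with sides at least `X ^ η`. Let `S` be an ARBITRARY set
of solutions, for example all those for which all the values are prime, or those of one colour. All but at
most `ε X ∏ (1 - ω_F(p) / p) ∏ A_i / (log X) ^ k` elements `(n, a)` of `S` are the middle of a progression
`(n + j d, a)`, `|j| ≤ K`, of elements of `S` with a common difference `d ≤ (log X) ^ B`. The bound is `ε` times the
order of magnitude which is expected for the number of the prime solutions, and uniform in all polynomials of degree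
at most `e`.

Example: for almost all pairs of primes `(p, q)` there is `d ≤ (log X) ^ B` such that all `p + j d` and all
`q - j d`, `|j| ≤ K`, are prime, even if `N = p + q` is restricted to an interval of length `X ^ η`.

Method: Szemerédi's theorem relative to arbitrary sifted sets (`Pool.Agent.Y843.HS.fin`, starting library) for each
`a`, and the average of the sieve products over short boxes (`Pool.Agent.X37.TQ.avg`): they are bounded by the numbers
of the arguments with rough values, which are averaged over `a` first. The lower bound sieve is helper26's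
`Pool.Agent.X26.GP.rough`.
-/

set_option autoImplicit false

namespace Pool.Agent.Results.MP_0bf1d2_nt.TypicalSolutionsInProgressions

open Finset

/-- `v` has no prime factor up to `z` -/
def Rough (z : ℝ) (v : ℤ) : Prop := ∀ p : ℕ, p.Prime → (p : ℝ) ≤ z → ¬ (p : ℤ) ∣ v

/-- the number of the zeros of `F` modulo `p` -/
def omega (F : Polynomial ℤ) (p : ℕ) : ℕ := ((range p).filter (fun n : ℕ => (p : ℤ) ∣ F.eval (n : ℤ))).card

/-- `(n - K d, a), …, (n, a), …, (n + K d, a)` are in `S` for some positive `d ≤ D` -/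
def Middle {k : ℕ} (K : ℕ) (D : ℝ) (S : Finset (ℕ × (Fin k → ℤ))) (n : ℕ) (a : Fin k → ℤ) : Prop :=
  ∃ d : ℕ, 1 ≤ d ∧ (d : ℝ) ≤ D ∧ K * d ≤ n ∧ ∀ j ≤ 2 * K, (n - K * d + j * d, a) ∈ S

open Classical in
theorem result (k e K : ℕ) (η ε : ℝ) (hη : 0 < η) (hε : 0 < ε) : ∃ B X₀ : ℕ, ∀ X : ℕ, X₀ ≤ X →
    ∀ (F : Polynomial ℤ) (f : Fin k → Polynomial ℤ), F.natDegree ≤ e → (∀ i, (f i).natDegree ≤ e) →
    ∀ (U : ℕ) (b : Fin k → ℤ) (A : Fin k → ℕ), (∀ i, (X : ℝ) ^ η ≤ A i) →
    ∀ S : Finset (ℕ × (Fin k → ℤ)), (∀ x ∈ S, U < x.1 ∧ x.1 ≤ U + X ∧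
      Rough ((X : ℝ) ^ η) (F.eval (x.1 : ℤ)) ∧ (∀ i, b i < x.2 i ∧ x.2 i ≤ b i + A i) ∧
      ∀ i, Rough ((X : ℝ) ^ η) ((f i).eval (x.1 : ℤ) + x.2 i)) →
    ((S.filter (fun x => ¬ Middle K (Real.log X ^ B) S x.1 x.2)).card : ℝ) ≤
      ε * (X * (∏ p ∈ (Icc 1 ⌊(X : ℝ) ^ η⌋₊).filter Nat.Prime, (1 - (omega F p : ℝ) / p)) *
        ((∏ i, (A i : ℝ)) / Real.log X ^ k)) := by
  obtain ⟨B, X₀, h⟩ := Pool.Agent.X37.TQ.main k e K η ε hη hε
  refine ⟨B, X₀, fun X hX F f hF hf U b A hA S hS => ?_⟩
  have h1 := h X hX F f hF hf U b A hA S hS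
  have h2 : Pool.Agent.Y843.HS.VV (Pool.Agent.X26.GP.Zf F) 0 ⌊(X : ℝ) ^ η⌋₊ =
      ∏ p ∈ (Icc 1 ⌊(X : ℝ) ^ η⌋₊).filter Nat.Prime, (1 - (omega F p : ℝ) / p) := by
    unfold Pool.Agent.Y843.HS.VV Pool.Agent.Y843.HS.Pr
    have h3 : Ioc 0 ⌊(X : ℝ) ^ η⌋₊ = Icc 1 ⌊(X : ℝ) ^ η⌋₊ := by
      ext v
      rw [mem_Ioc, mem_Icc]
      omega
    rw [h3]
    rfl
  rw [h2] at h1
  exact h1

end Pool.Agent.Results.MP_0bf1d2_nt.TypicalSolutionsInProgressions
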